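import Mathlib
import Pool.Agent.X23.LF1

/-!
# A `p`-Banach space isometric to its own Lipschitz free `p`-space
-/

namespace Pool.Agent.Results.MP_fdacb0_an.SelfFree

open Pool.Agent.X23.LF

/-- `(X, n)` is a (real) `p`-Banach space: `n` is a `p`-norm on the real vector space `X`, and `X`
is complete for the metric `n (x - y) ^ p`. -/
structure IsPBanach (p : ℝ) (X : Type) [AddCommGroup X] [Module ℝ X] (n : X → ℝ) : Prop where
  nonneg : ∀ x, 0 ≤ n x
  eq_zero : ∀ x, n x = 0 → x = 0
  smul : ∀ (t : ℝ) (x : X), n (t • x) = |t| * n x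
  add : ∀ x y, n (x + y) ^ p ≤ n x ^ p + n y ^ p
  complete : ∀ u : ℕ → X,
    (∀ ε > 0, ∃ N, ∀ i ≥ N, ∀ j ≥ N, n (u i - u j) ^ p < ε) →
    ∃ x, ∀ ε > 0, ∃ N, ∀ i ≥ N, n (u i - x) ^ p < ε

/-- `(F, m)` with the map `δ : M → F` is the Lipschitz free `p`-space of the `p`-metric space
`(M, d)` with base point `o`, by the universal property. -/
structure IsLipschitzFree (p : ℝ) {M : Type} (d : M → M → ℝ) (o : M) (F : Type)
    [AddCommGroup F] [Module ℝ F] (m : F → ℝ) (δ : M → F) : Prop where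
  banach : IsPBanach p F m
  base : δ o = 0
  lip : ∀ x y, m (δ x - δ y) ≤ d x y
  univ : ∀ (Y : Type) [AddCommGroup Y] [Module ℝ Y] (q : Y → ℝ), IsPBanach p Y q →
    ∀ (f : M → Y) (L : ℝ), 0 ≤ L → f o = 0 → (∀ x y, q (f x - f y) ≤ L * d x y) →
    ∃ T : F →ₗ[ℝ] Y, (∀ v, q (T v) ≤ L * m v) ∧ (∀ x, T (δ x) = f x) ∧
      ∀ T' : F →ₗ[ℝ] Y, (∃ C, ∀ v, q (T' v) ≤ C * m v) → (∀ x, T' (δ x) = f x) → T' = T

theorem rpow_rpow_inv' {p : ℝ} (hp : 0 < p) {a : ℝ} (ha : 0 ≤ a) : (a ^ (1 / p)) ^ p = a := by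
  rw [← Real.rpow_mul ha, one_div, inv_mul_cancel₀ hp.ne', Real.rpow_one]

theorem rpow_inv_rpow' {p : ℝ} (hp : 0 < p) {a : ℝ} (ha : 0 ≤ a) : (a ^ p) ^ (1 / p) = a := by
  rw [← Real.rpow_mul ha, one_div, mul_inv_cancel₀ hp.ne', Real.rpow_one]

/-- the group norm `q ^ p` -/
noncomputable def gn {p : ℝ} (hp : 0 < p) {Y : Type} [AddCommGroup Y] [Module ℝ Y] {q : Y → ℝ}
    (h : IsPBanach p Y q) : AddGroupNorm Y where
  toFun y := q y ^ p
  map_zero' := by
    have h0 := h.smul 0 (0 : Y)
    rw [zero_smul, abs_zero, zero_mul] at h0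
    rw [h0, Real.zero_rpow hp.ne']
  add_le' := h.add
  neg' y := by
    have h0 := h.smul (-1) y
    rw [neg_one_smul, abs_neg, abs_one, one_mul] at h0
    rw [h0]
  eq_zero_of_map_eq_zero' y hy := h.eq_zero y ((Real.rpow_eq_zero (h.nonneg y) hp.ne').mp hy)

/-- For every `0 < p < 1` there is a nonzero `p`-Banach space which is isometric to its own
Lipschitz free `p`-space. -/
theorem result (p : ℝ) (hp0 : 0 < p) (hp1 : p < 1) :
    ∃ (X : Type) (_ : AddCommGroup X) (_ : Module ℝ X) (n : X → ℝ),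
      IsPBanach p X n ∧ (∃ x : X, x ≠ 0) ∧
      ∃ (F : Type) (_ : AddCommGroup F) (_ : Module ℝ F) (m : F → ℝ) (δ : X → F),
        IsLipschitzFree p (fun x y => n (x - y)) 0 F m δ ∧
        ∃ e : F ≃ₗ[ℝ] X, ∀ v, n (e v) = m v := by
  have hne : Nonempty (Model p) := ⟨base hp0 hp1.le⟩
  have hinv : 0 < 1 / p := one_div_pos.mpr hp0
  have hban : IsPBanach p (X p) (fun x => ‖x‖ ^ (1 / p)) := by
    refine ⟨fun x => Real.rpow_nonneg (norm_nonneg x) _, ?_, ?_, ?_, ?_⟩
    · intro x hx
      exact norm_eq_zero.mp ((Real.rpow_eq_zero (norm_nonneg x) hinv.ne').mp hx)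
    · intro t x
      rw [norm_smul_X, Real.mul_rpow (Real.rpow_nonneg (abs_nonneg t) _) (norm_nonneg x),
        rpow_inv_rpow' hp0 (abs_nonneg t)]
    · intro x y
      rw [rpow_rpow_inv' hp0 (norm_nonneg _), rpow_rpow_inv' hp0 (norm_nonneg _),
        rpow_rpow_inv' hp0 (norm_nonneg _)]
      exact norm_add_le x y
    · intro u hu
      simp only [rpow_rpow_inv' hp0 (norm_nonneg _)] at hu ⊢
      have hc : CauchySeq u := by
        rw [Metric.cauchySeq_iff]
        intro ε hε
        obtain ⟨N, hN⟩ := hu ε hε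
        refine ⟨N, fun i hi j hj => ?_⟩
        rw [dist_eq_norm]
        exact hN i hi j hj
      obtain ⟨x, hx⟩ := cauchySeq_tendsto_of_complete hc
      refine ⟨x, fun ε hε => ?_⟩
      obtain ⟨N, hN⟩ := Metric.tendsto_atTop.mp hx ε hε
      refine ⟨N, fun i hi => ?_⟩
      rw [← dist_eq_norm]
      exact hN i hi
  refine ⟨X p, inferInstance, inferInstance, fun x => ‖x‖ ^ (1 / p), hban, ?_, X p, inferInstance,
    inferInstance, fun x => ‖x‖ ^ (1 / p), δX, ?_, LinearEquiv.refl ℝ (X p), fun v => rfl⟩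
  · refine ⟨eX, ?_⟩
    intro h0
    have h1 : ‖(eX : X p)‖ = 0 := by rw [h0, norm_zero]
    rw [eX, UniformSpace.Completion.norm_coe] at h1
    have h2 := le_N (base hp0 hp1.le) (cl p Tm.e)
    rw [← norm_Q, h1, evQ_cl] at h2
    have h3 : ‖ev (base hp0 hp1.le) Tm.e‖ = 1 := base_norm hp0 hp1.le
    rw [h3] at h2
    linarith
  · refine ⟨hban, δX_zero, ?_, ?_⟩
    · intro x y
      exact Real.rpow_le_rpow (norm_nonneg _) (δX_lip x y) hinv.le
    · intro Y _ _ q hq f L hL hf0 hf
      letI : NormedAddCommGroup Y := (gn hp0 hq).toNormedAddCommGroup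
      have hnorm : ∀ y : Y, ‖y‖ = q y ^ p := fun _ => rfl
      have hq' : ∀ y : Y, q y = ‖y‖ ^ (1 / p) := by
        intro y
        rw [hnorm, rpow_inv_rpow' hp0 (hq.nonneg y)]
      have hsY : ∀ (t : ℝ) (x : Y), ‖t • x‖ = |t| ^ p * ‖x‖ := by
        intro t x
        rw [hnorm, hnorm, hq.smul, Real.mul_rpow (abs_nonneg t) (hq.nonneg x)]
      have : CompleteSpace Y := by
        apply Metric.complete_of_cauchySeq_tendsto
        intro u hu
        rw [Metric.cauchySeq_iff] at hu
        obtain ⟨x, hx⟩ := hq.complete u (by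
          intro ε hε
          obtain ⟨N, hN⟩ := hu ε hε
          refine ⟨N, fun i hi j hj => ?_⟩
          have := hN i hi j hj
          rwa [dist_eq_norm, hnorm] at this)
        refine ⟨x, ?_⟩
        rw [Metric.tendsto_atTop]
        intro ε hε
        obtain ⟨N, hN⟩ := hx ε hε
        refine ⟨N, fun i hi => ?_⟩
        rw [dist_eq_norm, hnorm]
        exact hN i hi
      have hcont : ∀ T' : X p →ₗ[ℝ] Y, (∃ C, ∀ v, q (T' v) ≤ C * ‖v‖ ^ (1 / p)) →
          Continuous T' := by
        rintro T' ⟨C, hC⟩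
        have hC0 : ∀ v, ‖T' v‖ ≤ |C| ^ p * ‖v‖ := by
          intro v
          have h1 : q (T' v) ≤ |C| * ‖v‖ ^ (1 / p) :=
            (hC v).trans (mul_le_mul_of_nonneg_right (le_abs_self C)
              (Real.rpow_nonneg (norm_nonneg v) _))
          rw [hnorm]
          refine (Real.rpow_le_rpow (hq.nonneg _) h1 hp0.le).trans ?_
          rw [Real.mul_rpow (abs_nonneg C) (Real.rpow_nonneg (norm_nonneg v) _),
            rpow_rpow_inv' hp0 (norm_nonneg v)]
        have : LipschitzWith ⟨|C| ^ p, Real.rpow_nonneg (abs_nonneg C) p⟩ T' := by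
          apply LipschitzWith.of_dist_le_mul
          intro x y
          rw [dist_eq_norm, dist_eq_norm, ← map_sub]
          exact hC0 _
        exact this.continuous
      rcases hL.eq_or_lt with hL0 | hL0
      · subst hL0
        have hf1 : ∀ x, f x = 0 := by
          intro x
          have h1 := hf x 0
          rw [hf0, sub_zero, zero_mul] at h1
          exact hq.eq_zero _ (le_antisymm h1 (hq.nonneg _))
        refine ⟨0, ?_, ?_, ?_⟩
        · intro v
          rw [LinearMap.zero_apply, hq', norm_zero, Real.zero_rpow hinv.ne', zero_mul]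
        · intro x
          rw [LinearMap.zero_apply, hf1]
        · intro T' hT' hT'2
          refine ext_δ T' 0 (hcont T' hT') continuous_const ?_
          intro x
          rw [hT'2, LinearMap.zero_apply, hf1]
      · obtain ⟨T1, hT1, hT2⟩ := universal (p := p) hsY (fun x => L⁻¹ • f x)
          (by simp only [hf0, smul_zero]) (by
            intro x y
            rw [← smul_sub, hsY, hnorm]
            have h1 := Real.rpow_le_rpow (hq.nonneg _) (hf x y) hp0.le
            rw [Real.mul_rpow hL (Real.rpow_nonneg (norm_nonneg _) _),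
              rpow_rpow_inv' hp0 (norm_nonneg _)] at h1
            rw [abs_inv, abs_of_pos hL0, Real.inv_rpow hL, inv_mul_le_iff₀
              (Real.rpow_pos_of_pos hL0 p)]
            exact h1)
        refine ⟨L • T1, ?_, ?_, ?_⟩
        · intro v
          rw [LinearMap.smul_apply, hq.smul, abs_of_pos hL0]
          apply mul_le_mul_of_nonneg_left _ hL
          rw [hq']
          exact Real.rpow_le_rpow (norm_nonneg _) (hT1 v) hinv.le
        · intro x
          rw [LinearMap.smul_apply, hT2, smul_smul, mul_inv_cancel₀ hL0.ne', one_smul]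
        · intro T' hT' hT'2
          refine ext_δ T' (L • T1) (hcont T' hT') ?_ ?_
          · apply hcont
            refine ⟨L, fun v => ?_⟩
            rw [LinearMap.smul_apply, hq.smul, abs_of_pos hL0]
            apply mul_le_mul_of_nonneg_left _ hL
            rw [hq']
            exact Real.rpow_le_rpow (norm_nonneg _) (hT1 v) hinv.le
          · intro x
            rw [hT'2, LinearMap.smul_apply, hT2, smul_smul, mul_inv_cancel₀ hL0.ne', one_smul]

end Pool.Agent.Results.MP_fdacb0_an.SelfFree
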